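import Pool.Agent.Y934.BEF.Stm
import Pool.Agent.H321R3.HermFun
import Pool.Agent.H321R3.HermZeros

/-!
# Columns of zeros of the comb transform
-/

set_option autoImplicit false

namespace Pool.Agent.Y239.BEF

open Filter Topology Pool.Agent.H321R3.Herm Pool.Agent.Y934.BEF

/-- The term of `m` at the position `X`. -/
noncomputable def ct (P : Polynomial ℝ) (S : Set ℤ) (κ : ℤ → ℝ) (g X : ℝ) (m : ℤ) : ℝ :=
  cw S κ g m * gw P (m * g - X)

/-- The phase. -/
noncomputable def ph (θ : ℝ) (z : ℂ) : ℂ := Complex.exp (-(2 * (Real.pi : ℂ) * Complex.I * ((θ : ℂ) * z)))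

theorem norm_ph (θ : ℝ) (m : ℤ) : ‖ph θ (m : ℂ)‖ = 1 := by
  unfold ph
  have h : (-(2 * (Real.pi : ℂ) * Complex.I * ((θ : ℂ) * (m : ℂ)))) =
      ((-(2 * Real.pi * (θ * m)) : ℝ) : ℂ) * Complex.I := by
    push_cast
    ring
  rw [h, Complex.norm_exp_ofReal_mul_I]

/-- The terms of the remainder. -/
noncomputable def fR (P : Polynomial ℝ) (S : Set ℤ) (κ : ℤ → ℝ) (g : ℝ) (k j : ℤ) (X θ : ℝ)
    (m : ℤ) : ℂ :=
  if m = k ∨ m = j then 0 else ((ct P S κ g X m : ℝ) : ℂ) * ph θ ((m - k : ℤ) : ℂ)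

/-- The remainder. -/
noncomputable def RR (P : Polynomial ℝ) (S : Set ℤ) (κ : ℤ → ℝ) (g : ℝ) (k j : ℤ) (X θ : ℝ) : ℂ :=
  ∑' m : ℤ, fR P S κ g k j X θ m

theorem norm_fR (P : Polynomial ℝ) (S : Set ℤ) (κ : ℤ → ℝ) (g : ℝ) (k j : ℤ) (X θ : ℝ) (m : ℤ) :
    ‖fR P S κ g k j X θ m‖ = if m = k ∨ m = j then 0 else |ct P S κ g X m| := by
  unfold fR
  split_ifs
  · exact norm_zero
  · rw [norm_mul, norm_ph, mul_one, Complex.norm_real, Real.norm_eq_abs]

theorem V_eq {P : Polynomial ℝ} {S : Set ℤ} {κ : ℤ → ℝ} {g : ℝ} {k j : ℤ} (hjk : j ≠ k) {X : ℝ}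
    (hs : Summable fun l : ℤ => |ct P S κ g X l|) (θ : ℝ) :
    V (gw P) (cw S κ g) g X θ = ph θ (k : ℂ) *
      ((ct P S κ g X k : ℂ) + (ct P S κ g X j : ℂ) * ph θ ((j - k : ℤ) : ℂ) +
        RR P S κ g k j X θ) := by
  let F : ℤ → ℂ := fun m => ((ct P S κ g X m : ℝ) : ℂ) * ph θ ((m - k : ℤ) : ℂ)
  have hF : Summable F := by
    refine Summable.of_norm (hs.congr fun m => ?_)
    change _ = ‖((ct P S κ g X m : ℝ) : ℂ) * ph θ ((m - k : ℤ) : ℂ)‖
    rw [norm_mul, norm_ph, mul_one, Complex.norm_real, Real.norm_eq_abs]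
  have h1 : V (gw P) (cw S κ g) g X θ = ∑' m : ℤ, ph θ (k : ℂ) * F m := by
    unfold V
    refine tsum_congr fun m => ?_
    have h2 : Complex.exp (-(2 * (Real.pi : ℂ) * Complex.I * ((θ : ℂ) * (m : ℂ)))) =
        ph θ (k : ℂ) * ph θ ((m - k : ℤ) : ℂ) := by
      unfold ph
      rw [← Complex.exp_add]
      congr 1
      push_cast
      ring
    rw [h2]
    change ((ct P S κ g X m : ℝ) : ℂ) * _ = _ * (_ * _)
    ring
  have h3 : Summable fun m : ℤ => if m = k then F m else 0 :=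
    summable_of_ne_finset_zero (s := {k}) fun m hm => if_neg (by simpa using hm)
  have h4 : Summable fun m : ℤ => if m = j then F m else 0 :=
    summable_of_ne_finset_zero (s := {j}) fun m hm => if_neg (by simpa using hm)
  have h5 : Summable fun m : ℤ => fR P S κ g k j X θ m := by
    refine Summable.of_norm_bounded hs fun m => ?_
    rw [norm_fR]
    split_ifs
    · exact abs_nonneg _
    · exact le_rfl
  have h6 : ∑' m, F m = F k + F j + RR P S κ g k j X θ := by
    have h7 : ∀ m, F m = ((if m = k then F m else 0) + (if m = j then F m else 0)) +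
        fR P S κ g k j X θ m := by
      intro m
      unfold fR
      by_cases hk : m = k
      · subst hk
        simp [Ne.symm hjk]
      · by_cases hj : m = j
        · simp [hj, hjk]
        · simp [hk, hj, F]
    rw [tsum_congr h7, (h3.add h4).tsum_add h5, h3.tsum_add h4, tsum_ite_eq, tsum_ite_eq]
    rfl
  rw [h1, tsum_mul_left, h6]
  have h8 : F k = (ct P S κ g X k : ℂ) := by
    change ((ct P S κ g X k : ℝ) : ℂ) * ph θ ((k - k : ℤ) : ℂ) = _
    unfold ph
    simp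
  rw [h8]

theorem norm_RR_le {P : Polynomial ℝ} {S : Set ℤ} {κ : ℤ → ℝ} {g : ℝ} {k j : ℤ} {X : ℝ}
    (hs : Summable fun l : ℤ => |ct P S κ g X l|) (θ : ℝ) :
    ‖RR P S κ g k j X θ‖ ≤ ∑' l : ℤ, (if l = k ∨ l = j then 0 else |ct P S κ g X l|) := by
  unfold RR
  have h5 : Summable fun m : ℤ => ‖fR P S κ g k j X θ m‖ := by
    refine Summable.of_nonneg_of_le (fun m => norm_nonneg _) (fun m => ?_) hs
    rw [norm_fR]
    split_ifs
    · exact abs_nonneg _
    · exact le_rfl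
  refine (norm_tsum_le_tsum_norm h5).trans (le_of_eq ?_)
  exact tsum_congr fun m => norm_fR P S κ g k j X θ m

theorem gw_continuous (P : Polynomial ℝ) : Continuous (gw P) := by
  unfold gw
  exact P.continuous.mul (by fun_prop)

theorem abs_cw_le {S : Set ℤ} {κ : ℤ → ℝ} (hκ : ∀ m, 0 ≤ κ m) (g : ℝ) (m : ℤ) :
    |cw S κ g m| ≤ 1 := by
  unfold cw
  by_cases h : m ∈ S
  · rw [Set.indicator_of_mem h, Real.abs_exp]
    apply Real.exp_le_one_iff.mpr
    have := hκ m
    have := Real.pi_pos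
    have h1 : 0 ≤ Real.pi * κ m * g ^ 2 := by positivity
    linarith
  · rw [Set.indicator_of_notMem h, abs_zero]
    exact zero_le_one

theorem RR_continuousOn {P : Polynomial ℝ} {S : Set ℤ} {κ : ℤ → ℝ} (hκ : ∀ m, 0 ≤ κ m) {g : ℝ}
    (hg : 1 ≤ g) (k j : ℤ) {X : ℝ → ℝ} (hX : Continuous X) {s : Set ℝ} {L : ℝ} (hL0 : 0 ≤ L)
    (hL : ∀ x ∈ s, |X x| ≤ L) :
    ContinuousOn (fun p : ℝ × ℝ => RR P S κ g k j (X p.1) p.2) (s ×ˢ Set.univ) := by
  obtain ⟨C, hC, hC2⟩ := poly_exp_decay P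
  unfold RR
  refine continuousOn_tsum (fun m => ?_) (summable_bd C L) (fun m p hp => ?_)
  · apply Continuous.continuousOn
    unfold fR
    split_ifs
    · exact continuous_const
    · unfold ct ph
      refine Continuous.mul ?_ ?_
      · refine Complex.continuous_ofReal.comp (continuous_const.mul ((gw_continuous P).comp ?_))
        exact continuous_const.sub (hX.comp continuous_fst)
      · refine Complex.continuous_exp.comp (Continuous.neg (continuous_const.mul
          (Continuous.mul ?_ continuous_const)))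
        exact Complex.continuous_ofReal.comp continuous_snd
  · rw [norm_fR]
    have hb : |ct P S κ g (X p.1) m| ≤ C * ((1 + L) ^ 3 * (1 / (1 + |(m : ℝ)|) ^ 3)) := by
      unfold ct
      rw [abs_mul]
      have h1 : |gw P (m * g - X p.1)| ≤ C * ((1 + L) ^ 3 * (1 / (1 + |(m : ℝ)|) ^ 3)) := by
        refine (hC2 _).trans (mul_le_mul_of_nonneg_left ?_ hC)
        rw [sub_eq_add_neg]
        exact decay_unif L hL0 g (-X p.1) hg (by rw [abs_neg]; exact hL _ hp.1) m
      calc |cw S κ g m| * |gw P (m * g - X p.1)|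
          ≤ 1 * |gw P (m * g - X p.1)| :=
            mul_le_mul_of_nonneg_right (abs_cw_le hκ g m) (abs_nonneg _)
        _ ≤ _ := by rw [one_mul]; exact h1
    split_ifs
    · positivity
    · exact hb

theorem ct_continuous (P : Polynomial ℝ) (S : Set ℤ) (κ : ℤ → ℝ) (g : ℝ) (m : ℤ) {X : ℝ → ℝ}
    (hX : Continuous X) : Continuous fun x => ct P S κ g (X x) m := by
  unfold ct
  exact continuous_const.mul ((gw_continuous P).comp (continuous_const.sub hX))

theorem cw_pos {S : Set ℤ} {κ : ℤ → ℝ} {g : ℝ} {m : ℤ} (h : m ∈ S) : 0 < cw S κ g m := by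
  unfold cw
  rw [Set.indicator_of_mem h]
  exact Real.exp_pos _

theorem colA (hr : RatioStm) (hd : DomAStm) (ht : TwoAStm) : ColAStm := by
  intro P hP S κ hκ k j hk hj hjk hkj hsec p₁ p₂ hp hsign
  set U : ℝ := max |p₁| |p₂| with hU
  have hU0 : 0 ≤ U := (abs_nonneg _).trans (le_max_left _ _)
  have h1 : gw P p₁ ≠ 0 := left_ne_zero_of_mul hsign.ne
  have h2 : gw P p₂ ≠ 0 := right_ne_zero_of_mul hsign.ne
  set μ : ℝ := min |gw P p₁| |gw P p₂| / 2 with hμ
  have hμ0 : 0 < μ := half_pos (lt_min (abs_pos.mpr h1) (abs_pos.mpr h2))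
  have hjk' : (j : ℝ) ≠ (k : ℝ) := by exact_mod_cast hjk
  filter_upwards [hr P hP S κ hκ (k : ℝ) k j hj hjk' hsec U, hd P S κ k j hk hj hkj U μ hμ0,
    eventually_ge_atTop 1] with g h3 h4 hg
  intro r
  have hvU : ∀ v ∈ Set.Icc p₁ p₂, |-v| ≤ U := by
    intro v hv
    rw [abs_neg]
    exact abs_le_max_abs_abs hv.1 hv.2
  have h3' : ∀ v ∈ Set.Icc p₁ p₂, gw P (j * g - (k * g - v)) ≠ 0 ∧
      (Summable fun l : ℤ => |ct P S κ g (k * g - v) l|) ∧
      ∑' l : ℤ, (if l = k ∨ l = j then 0 else |ct P S κ g (k * g - v) l|) ≤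
        |ct P S κ g (k * g - v) j| / 4 := by
    intro v hv
    have h5 := h3 (-v) (hvU v hv)
    rw [← sub_eq_add_neg] at h5
    exact h5
  have hX : Continuous fun v : ℝ => (k : ℝ) * g - v := by fun_prop
  have hend : ∀ v ∈ Set.Icc p₁ p₂, μ * 2 ≤ |gw P v| →
      2 * |ct P S κ g (k * g - v) j| ≤ |ct P S κ g (k * g - v) k| := by
    intro v hv hv2
    have h5 := h4 (-v) (hvU v hv)
    rw [← sub_eq_add_neg] at h5
    have h6 : ct P S κ g (k * g - v) k = cw S κ g k * gw P v := by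
      unfold ct
      rw [sub_sub_cancel]
    have h7 : 0 < cw S κ g k := cw_pos hk
    rw [h6, abs_mul, abs_of_pos h7]
    calc 2 * |ct P S κ g (k * g - v) j| ≤ 2 * (μ * cw S κ g k) :=
          mul_le_mul_of_nonneg_left h5 (by norm_num)
      _ = cw S κ g k * (μ * 2) := by ring
      _ ≤ cw S κ g k * |gw P v| := mul_le_mul_of_nonneg_left hv2 h7.le
  have hμ2 : μ * 2 = min |gw P p₁| |gw P p₂| := by
    rw [hμ]
    ring
  obtain ⟨v, hv, θ, hθ, h0⟩ := ht (fun v => ct P S κ g (k * g - v) k)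
    (fun v => ct P S κ g (k * g - v) j) (fun p => RR P S κ g k j (k * g - p.1) p.2) p₁ p₂ hp
    (ct_continuous P S κ g k hX).continuousOn (ct_continuous P S κ g j hX).continuousOn
    (RR_continuousOn hκ hg k j hX (L := |(k : ℝ) * g| + U) (by positivity) (fun v hv => by
      refine (abs_sub _ _).trans ?_
      have := hvU v hv
      rw [abs_neg] at this
      linarith))
    (fun v hv => mul_ne_zero (cw_pos hj).ne' (h3' v hv).1)
    (fun v hv θ => (norm_RR_le (h3' v hv).2.1 θ).trans (h3' v hv).2.2)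
    (hend p₁ (Set.left_mem_Icc.mpr hp.le) (by rw [hμ2]; exact min_le_left _ _))
    (hend p₂ (Set.right_mem_Icc.mpr hp.le) (by rw [hμ2]; exact min_le_right _ _))
    (by
      have h5 : ∀ v : ℝ, ct P S κ g (k * g - v) k = cw S κ g k * gw P v := by
        intro v
        unfold ct
        rw [sub_sub_cancel]
      have h6 : 0 < cw S κ g k := cw_pos hk
      simp only [h5]
      have h7 : cw S κ g k * gw P p₁ * (cw S κ g k * gw P p₂) =
          (cw S κ g k) ^ 2 * (gw P p₁ * gw P p₂) := by ring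
      rw [h7]
      exact mul_neg_of_pos_of_neg (by positivity) hsign)
    (j - k) (sub_ne_zero.mpr hjk) r
  refine ⟨v, hv, θ, hθ, ?_⟩
  rw [V_eq hjk (h3' v (Set.Ioo_subset_Icc_self hv)).2.1 θ]
  unfold ph
  rw [h0, mul_zero]

theorem colB (hr : RatioStm) (hd : DomBStm) (ht : TwoBStm) : ColBStm := by
  intro P hP S κ hκ k j hk hj y hky hyj heq hsec
  have hjk : j ≠ k := by
    rintro rfl
    linarith
  have hkj' : k < j := by
    have : (k : ℝ) < j := hky.trans hyj
    exact_mod_cast this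
  have hsec' : ∀ l ∈ S, l ≠ j → l ≠ k → κ k + ((k : ℝ) - y) ^ 2 < κ l + ((l : ℝ) - y) ^ 2 := by
    intro l hl h1 h2
    rw [heq]
    exact hsec l hl h2 h1
  filter_upwards [hr P hP S κ hκ y k j hj hyj.ne' hsec 1, hr P hP S κ hκ y j k hk hky.ne hsec' 1,
    hd P hP S κ k j hk hj y hky hyj heq 1 one_pos, eventually_ge_atTop 1] with g h1 h2 h3 hg
  have hX : Continuous fun s : ℝ => y * g + s := by fun_prop
  have hs1 : ∀ s ∈ Set.Icc (-1 : ℝ) 1, |s| ≤ 1 := fun s hs => abs_le.mpr hs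
  have hdc : (((j - k).toNat : ℕ) : ℤ) = j - k := Int.toNat_of_nonneg (by omega)
  have hdr : (((j - k).toNat : ℕ) : ℝ) = ((j - k : ℤ) : ℝ) := by exact_mod_cast congrArg (Int.cast (R := ℝ)) hdc
  have hdcc : (((j - k).toNat : ℕ) : ℂ) = ((j - k : ℤ) : ℂ) := by exact_mod_cast congrArg (Int.cast (R := ℂ)) hdc
  obtain ⟨φ, hφ⟩ := ht (fun s => ct P S κ g (y * g + s) k) (fun s => ct P S κ g (y * g + s) j)
    (fun p => RR P S κ g k j (y * g + p.1) p.2) (-1) 1 (by norm_num)
    (ct_continuous P S κ g k hX).continuousOn (ct_continuous P S κ g j hX).continuousOn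
    (RR_continuousOn hκ hg k j hX (L := |y * g| + 1) (by positivity) (fun s hs => by
      refine (abs_add_le _ _).trans ?_
      have := hs1 s hs
      linarith))
    (fun s hs => mul_ne_zero (cw_pos hk).ne' (h2 s (hs1 s hs)).1)
    (fun s hs => mul_ne_zero (cw_pos hj).ne' (h1 s (hs1 s hs)).1)
    (fun s hs θ => (norm_RR_le (h1 s (hs1 s hs)).2.1 θ).trans (h1 s (hs1 s hs)).2.2)
    (by
      have h4 := h3.1
      rw [sub_eq_add_neg (y * g) 1] at h4
      exact h4)
    h3.2 (j - k).toNat (by omega)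
  refine ⟨φ, fun r => ?_⟩
  obtain ⟨s, hs, θ, hθ, h0⟩ := hφ r
  rw [hdr] at hθ
  rw [hdcc] at h0
  refine ⟨-s, ⟨by linarith [hs.2], by linarith [hs.1]⟩, θ, hθ, ?_⟩
  rw [sub_neg_eq_add, V_eq hjk (h1 s (hs1 s (Set.Ioo_subset_Icc_self hs))).2.1 θ]
  unfold ph
  rw [h0, mul_zero]

end Pool.Agent.Y239.BEF
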