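import Pool.Agent.Y934.BEF.Stm
import Pool.Agent.H321R3.HermFun
import Pool.Agent.H321R3.HermZeros

/-!
# Gaussian tails of a comb
-/

set_option autoImplicit false

namespace Pool.Agent.Y239.BEF

open Filter Topology Pool.Agent.H321R3.Herm Pool.Agent.Y934.BEF

theorem poly_lower_aux (P : Polynomial ℝ) (hP : P ≠ 0) :
    ∃ c : ℝ, 0 < c ∧ ∃ R : ℝ, ∀ t, R ≤ t → c ≤ |P.eval t| := by
  by_cases hd : 0 < P.degree
  · have h := (P.abs_tendsto_atTop hd).eventually_ge_atTop 1
    rw [eventually_atTop] at h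
    obtain ⟨R, hR⟩ := h
    exact ⟨1, one_pos, R, hR⟩
  · have h := Polynomial.eq_C_of_degree_le_zero (not_lt.mp hd)
    have h0 : P.coeff 0 ≠ 0 := by
      intro h0
      rw [h0, Polynomial.C_0] at h
      exact hP h
    refine ⟨|P.coeff 0|, abs_pos.mpr h0, 0, fun t _ => ?_⟩
    conv_rhs => rw [h, Polynomial.eval_C]

theorem poly_lower (P : Polynomial ℝ) (hP : P ≠ 0) :
    ∃ c : ℝ, 0 < c ∧ ∃ R : ℝ, ∀ t, R ≤ |t| → c ≤ |P.eval t| := by
  obtain ⟨c, hc, R, hR⟩ := poly_lower_aux P hP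
  have hP' : P.comp (-Polynomial.X) ≠ 0 := by
    intro h
    apply hP
    have h1 : (P.comp (-Polynomial.X)).comp (-Polynomial.X) = P := by
      rw [Polynomial.comp_assoc]
      simp
    rw [← h1, h, Polynomial.zero_comp]
  obtain ⟨c', hc', R', hR'⟩ := poly_lower_aux _ hP'
  refine ⟨min c c', lt_min hc hc', max R R', fun t ht => ?_⟩
  rcases le_total 0 t with h | h
  · rw [abs_of_nonneg h] at ht
    exact (min_le_left _ _).trans (hR t ((le_max_left _ _).trans ht))
  · rw [abs_of_nonpos h] at ht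
    have h1 := hR' (-t) ((le_max_right _ _).trans ht)
    rw [Polynomial.eval_comp] at h1
    simp only [Polynomial.eval_neg, Polynomial.eval_X, neg_neg] at h1
    exact (min_le_right _ _).trans h1

theorem finset_eps (F : Finset ℤ) (δ : ℤ → ℝ) (h : ∀ l ∈ F, 0 < δ l) :
    ∃ ε : ℝ, 0 < ε ∧ ε ≤ 1 ∧ ∀ l ∈ F, ε ≤ δ l := by
  induction F using Finset.induction_on with
  | empty => exact ⟨1, one_pos, le_rfl, by simp⟩
  | insert a F _ ih =>
    obtain ⟨ε, h1, h2, h3⟩ := ih fun l hl => h l (Finset.mem_insert_of_mem hl)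
    refine ⟨min ε (δ a), lt_min h1 (h a (Finset.mem_insert_self _ _)),
      (min_le_left _ _).trans h2, fun l hl => ?_⟩
    rcases Finset.mem_insert.mp hl with rfl | hl
    · exact min_le_right _ _
    · exact (min_le_left _ _).trans (h3 l hl)

/-- The gap of the exponents grows linearly. -/
theorem gap_eps (S : Set ℤ) (κ : ℤ → ℝ) (hκ : ∀ m, 0 ≤ κ m) (y : ℝ) (k j : ℤ)
    (h : ∀ l ∈ S, l ≠ k → l ≠ j → κ j + (j - y) ^ 2 < κ l + (l - y) ^ 2) :
    ∃ ε : ℝ, 0 < ε ∧ ∀ l ∈ S, l ≠ k → l ≠ j →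
      κ j + (j - y) ^ 2 + ε * (1 + |(l : ℝ) - y|) ≤ κ l + (l - y) ^ 2 := by
  classical
  set E : ℝ := κ j + (j - y) ^ 2 with hE
  have hE0 : 0 ≤ E := by
    have := hκ j
    positivity
  set M : ℝ := E + 3 with hM
  let F : Finset ℤ := (Finset.Icc ⌊y - M⌋ ⌈y + M⌉).filter fun l => l ∈ S ∧ l ≠ k ∧ l ≠ j
  obtain ⟨ε, h1, h2, h3⟩ := finset_eps F
    (fun l => (κ l + (l - y) ^ 2 - E) / (1 + |(l : ℝ) - y|)) (by
      intro l hl
      have hl' := (Finset.mem_filter.mp hl).2
      have := h l hl'.1 hl'.2.1 hl'.2.2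
      have h4 : 0 < 1 + |(l : ℝ) - y| := by positivity
      exact div_pos (by linarith) h4)
  refine ⟨ε, h1, fun l hl hlk hlj => ?_⟩
  have h4 : 0 < 1 + |(l : ℝ) - y| := by positivity
  rcases le_or_gt M |(l : ℝ) - y| with h5 | h5
  · have h6 : |(l : ℝ) - y| ^ 2 = (l - y) ^ 2 := sq_abs _
    have h7 := hκ l
    have h8 : ε * (1 + |(l : ℝ) - y|) ≤ 1 * (1 + |(l : ℝ) - y|) :=
      mul_le_mul_of_nonneg_right h2 h4.le
    nlinarith [mul_nonneg (sub_nonneg.mpr h5) (abs_nonneg ((l : ℝ) - y))]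
  · have h6 : l ∈ F := by
      refine Finset.mem_filter.mpr ⟨Finset.mem_Icc.mpr ⟨?_, ?_⟩, hl, hlk, hlj⟩
      · have h7 := (abs_lt.mp h5).1
        have h8 : (⌊y - M⌋ : ℝ) ≤ l := (Int.floor_le _).trans (by linarith)
        exact_mod_cast h8
      · have h7 := (abs_lt.mp h5).2
        have h8 : (l : ℝ) ≤ ⌈y + M⌉ := le_trans (by linarith) (Int.le_ceil _)
        exact_mod_cast h8
    have h7 := h3 l h6
    rw [le_div_iff₀ h4] at h7
    linarith

theorem cw_of_mem {S : Set ℤ} {κ : ℤ → ℝ} {g : ℝ} {m : ℤ} (h : m ∈ S) :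
    cw S κ g m = Real.exp (-(Real.pi * κ m * g ^ 2)) := by
  unfold cw
  rw [Set.indicator_of_mem h]

theorem cw_of_notMem {S : Set ℤ} {κ : ℤ → ℝ} {g : ℝ} {m : ℤ} (h : m ∉ S) :
    cw S κ g m = 0 := by
  unfold cw
  rw [Set.indicator_of_notMem h]

theorem pow_exp_le (n : ℕ) {z : ℝ} (hz : 0 ≤ z) :
    z ^ n * Real.exp (-(Real.pi * z)) ≤ n.factorial * Real.exp (-(2 * z)) := by
  have h1 := Real.pow_div_factorial_le_exp z hz n
  have h2 : (0 : ℝ) < n.factorial := by positivity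
  rw [div_le_iff₀ h2] at h1
  have h3 : Real.exp z * Real.exp (-(Real.pi * z)) ≤ Real.exp (-(2 * z)) := by
    rw [← Real.exp_add]
    apply Real.exp_le_exp.mpr
    nlinarith [Real.pi_gt_three]
  calc z ^ n * Real.exp (-(Real.pi * z))
      ≤ Real.exp z * n.factorial * Real.exp (-(Real.pi * z)) := by gcongr
    _ = n.factorial * (Real.exp z * Real.exp (-(Real.pi * z))) := by ring
    _ ≤ n.factorial * Real.exp (-(2 * z)) := by gcongr

theorem exp_le_inv {x : ℝ} (hx : 0 ≤ x) : Real.exp (-x) ≤ 6 * (1 / x ^ 3) ∨ x = 0 := by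
  rcases hx.eq_or_lt with h | h
  · exact Or.inr h.symm
  · left
    have h1 := Real.pow_div_factorial_le_exp x hx 3
    have h2 : (Nat.factorial 3 : ℝ) = 6 := by norm_num [Nat.factorial]
    rw [h2] at h1
    rw [Real.exp_neg, ← one_div, mul_one_div, div_le_div_iff₀ (Real.exp_pos _) (by positivity)]
    rw [div_le_iff₀ (by norm_num)] at h1
    linarith

/-- The key estimate. -/
theorem key {P : Polynomial ℝ} {S : Set ℤ} {κ : ℤ → ℝ} {y : ℝ} {j l : ℤ} (hj : j ∈ S) (hl : l ∈ S)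
    {U g u c D ε : ℝ} (hU : 0 ≤ U) (hu : |u| ≤ U) (hg : 1 ≤ g) (hc : 0 < c)
    (hcj : c ≤ |P.eval (j * g - (y * g + u))|) (hD0 : 0 ≤ D)
    (hD : ∀ t, |P.eval t| ≤ D * (1 + |t|) ^ P.natDegree)
    (hε : κ j + (j - y) ^ 2 + ε * (1 + |(l : ℝ) - y|) ≤ κ l + (l - y) ^ 2)
    (hg2 : g + 2 * g * U * (1 + |(j : ℝ) - y|) + U ^ 2 ≤ ε * g ^ 2) :
    |cw S κ g l * gw P (l * g - (y * g + u))| ≤
      |cw S κ g j * gw P (j * g - (y * g + u))| *
        (D * (1 + U) ^ P.natDegree * P.natDegree.factorial * 6 / c * Real.exp (-g) *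
          (1 / (1 + |(l : ℝ) - y|) ^ 3)) := by
  set n := P.natDegree with hn
  set a : ℝ := |(l : ℝ) - y| with ha
  set b : ℝ := |(j : ℝ) - y| with hb
  have ha0 : 0 ≤ a := abs_nonneg _
  have hb0 : 0 ≤ b := abs_nonneg _
  have hpi := Real.pi_pos
  set z : ℝ := g * (1 + a) with hz
  have hz0 : 0 ≤ z := by positivity
  have e1 : |cw S κ g l * gw P (l * g - (y * g + u))| =
      |P.eval (l * g - (y * g + u))| *
        Real.exp (-(Real.pi * κ l * g ^ 2) - Real.pi * (l * g - (y * g + u)) ^ 2) := by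
    have h0 : ∀ A B : ℝ, Real.exp (-A - B) = Real.exp (-A) * Real.exp (-B) := by
      intro A B
      rw [← Real.exp_add, sub_eq_add_neg]
    rw [cw_of_mem hl, gw, abs_mul, abs_mul, Real.abs_exp, Real.abs_exp, h0]
    ring
  have e2 : |cw S κ g j * gw P (j * g - (y * g + u))| =
      |P.eval (j * g - (y * g + u))| *
        Real.exp (-(Real.pi * κ j * g ^ 2) - Real.pi * (j * g - (y * g + u)) ^ 2) := by
    have h0 : ∀ A B : ℝ, Real.exp (-A - B) = Real.exp (-A) * Real.exp (-B) := by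
      intro A B
      rw [← Real.exp_add, sub_eq_add_neg]
    rw [cw_of_mem hj, gw, abs_mul, abs_mul, Real.abs_exp, Real.abs_exp, h0]
    ring
  have hal : |(l * g - (y * g + u) : ℝ)| ≤ a * g + U := by
    have : (l * g - (y * g + u) : ℝ) = (l - y) * g - u := by ring
    rw [this]
    refine (abs_sub _ _).trans ?_
    rw [abs_mul, abs_of_pos (by linarith : 0 < g)]
    gcongr
  have hpl : |P.eval (l * g - (y * g + u))| ≤ D * ((1 + U) * z) ^ n := by
    refine (hD _).trans ?_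
    refine mul_le_mul_of_nonneg_left (pow_le_pow_left₀ (by positivity) ?_ n) hD0
    have h1 : a * g + U + 1 ≤ (1 + U) * z := by
      rw [hz]
      nlinarith [mul_nonneg hU (by linarith : 0 ≤ g - 1), mul_nonneg (mul_nonneg hU ha0) (by linarith : 0 ≤ g)]
    linarith
  have hexp : -(Real.pi * κ l * g ^ 2) - Real.pi * (l * g - (y * g + u)) ^ 2 ≤
      -(Real.pi * z) + (-(Real.pi * κ j * g ^ 2) - Real.pi * (j * g - (y * g + u)) ^ 2) := by
    have hu1 : |((l : ℝ) - y) * u| ≤ a * U := by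
      rw [abs_mul]
      gcongr
    have hu2 : |((j : ℝ) - y) * u| ≤ b * U := by
      rw [abs_mul]
      gcongr
    have hu3 : u ^ 2 ≤ U ^ 2 := by
      rw [← sq_abs u]
      gcongr
    have h1 : ((l : ℝ) * g - (y * g + u)) ^ 2 ≥ (l - y) ^ 2 * g ^ 2 - 2 * g * (a * U) + u ^ 2 := by
      have := mul_le_mul_of_nonneg_left (abs_le.mp hu1).2 (by positivity : 0 ≤ 2 * g)
      linarith
    have h2 : ((j : ℝ) * g - (y * g + u)) ^ 2 ≤ (j - y) ^ 2 * g ^ 2 + 2 * g * (b * U) + u ^ 2 := by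
      have := mul_le_mul_of_nonneg_left (abs_le.mp hu2).1 (by positivity : 0 ≤ 2 * g)
      linarith
    have h3 : z + (κ j * g ^ 2 + ((j : ℝ) * g - (y * g + u)) ^ 2) ≤
        κ l * g ^ 2 + ((l : ℝ) * g - (y * g + u)) ^ 2 := by
      have h4 : (κ j + (j - y) ^ 2 + ε * (1 + a)) * g ^ 2 ≤ (κ l + (l - y) ^ 2) * g ^ 2 :=
        mul_le_mul_of_nonneg_right hε (by positivity)
      have h5 : (1 + a) * (g + 2 * g * U * (1 + b) + U ^ 2) ≤ (1 + a) * (ε * g ^ 2) :=
        mul_le_mul_of_nonneg_left hg2 (by positivity)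
      have h6 : 0 ≤ g * U * (a * b) := by positivity
      have h7 : 0 ≤ a * U ^ 2 := by positivity
      have h8 : 0 ≤ g * U := by positivity
      have h9 : 0 ≤ U ^ 2 := by positivity
      rw [hz]
      linarith
    have h10 := mul_le_mul_of_nonneg_left h3 hpi.le
    linarith
  have h3 := pow_exp_le n hz0
  have h4 : Real.exp (-(2 * z)) ≤ Real.exp (-g) * (6 * (1 / (1 + a) ^ 3)) := by
    have h5 : Real.exp (-(1 + a)) ≤ 6 * (1 / (1 + a) ^ 3) := by
      rcases exp_le_inv (by positivity : (0 : ℝ) ≤ 1 + a) with h | h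
      · exact h
      · linarith
    refine le_trans ?_ (mul_le_mul_of_nonneg_left h5 (Real.exp_pos _).le)
    rw [← Real.exp_add]
    apply Real.exp_le_exp.mpr
    rw [hz]
    nlinarith [mul_nonneg ha0 (by linarith : 0 ≤ g - 1)]
  rw [e1, e2]
  set X : ℝ := Real.exp (-(Real.pi * κ j * g ^ 2) - Real.pi * (j * g - (y * g + u)) ^ 2) with hX
  have hX0 : 0 < X := Real.exp_pos _
  calc |P.eval (l * g - (y * g + u))| *
        Real.exp (-(Real.pi * κ l * g ^ 2) - Real.pi * (l * g - (y * g + u)) ^ 2)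
      ≤ (D * ((1 + U) * z) ^ n) * (Real.exp (-(Real.pi * z)) * X) := by
        refine mul_le_mul hpl ?_ (Real.exp_pos _).le (by positivity)
        rw [hX, ← Real.exp_add]
        exact Real.exp_le_exp.mpr hexp
    _ = D * (1 + U) ^ n * (z ^ n * Real.exp (-(Real.pi * z))) * X := by
        rw [mul_pow]
        ring
    _ ≤ D * (1 + U) ^ n * (n.factorial * (Real.exp (-g) * (6 * (1 / (1 + a) ^ 3)))) * X := by
        refine mul_le_mul_of_nonneg_right (mul_le_mul_of_nonneg_left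
          (h3.trans (mul_le_mul_of_nonneg_left h4 (by positivity))) (by positivity)) hX0.le
    _ = c * X * (D * (1 + U) ^ n * n.factorial * 6 / c * Real.exp (-g) * (1 / (1 + a) ^ 3)) := by
        field_simp
    _ ≤ |P.eval (j * g - (y * g + u))| * X *
        (D * (1 + U) ^ n * n.factorial * 6 / c * Real.exp (-g) * (1 / (1 + a) ^ 3)) := by
        gcongr

theorem ratio : RatioStm := by
  intro P hP S κ hκ y k j hj hjy hsec U
  by_cases hU : 0 ≤ U
  swap
  · exact Filter.Eventually.of_forall fun g u hu =>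
      absurd (le_trans (abs_nonneg u) hu) hU
  obtain ⟨c, hc, R, hR⟩ := poly_lower P hP
  obtain ⟨D, hD, hD2⟩ := poly_bound P
  obtain ⟨ε, hε, hE⟩ := gap_eps S κ hκ y k j hsec
  set b : ℝ := |(j : ℝ) - y| with hb
  have hb0 : 0 < b := abs_pos.mpr (sub_ne_zero.mpr hjy)
  set K : ℝ := D * (1 + U) ^ P.natDegree * P.natDegree.factorial * 6 / c with hK
  have hK0 : 0 ≤ K := by positivity
  have hsum : Summable fun l : ℤ => 1 / (1 + |(l : ℝ) - y|) ^ 3 := by
    obtain ⟨C, hC, hC2⟩ := decay_comp 1 one_pos y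
    refine Summable.of_nonneg_of_le (fun l => by positivity) (fun l => ?_)
      ((summable_inv 3 (by norm_num)).mul_left C)
    have := hC2 0 ⟨le_rfl, zero_le_one⟩ l
    simpa using this
  set Sg : ℝ := ∑' l : ℤ, 1 / (1 + |(l : ℝ) - y|) ^ 3 with hSg
  have hSg0 : 0 ≤ Sg := tsum_nonneg fun l => by positivity
  have hlim : Tendsto (fun g : ℝ => K * Real.exp (-g) * Sg) atTop (𝓝 0) := by
    have h1 : Tendsto (fun g : ℝ => Real.exp (-g)) atTop (𝓝 0) := Real.tendsto_exp_neg_atTop_nhds_zero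
    have h2 := (h1.const_mul K).mul_const Sg
    simpa using h2
  have hev1 : ∀ᶠ g : ℝ in atTop, K * Real.exp (-g) * Sg ≤ 1 / 4 :=
    (hlim.eventually_lt_const (by norm_num : (0 : ℝ) < 1 / 4)).mono fun g hg => hg.le
  filter_upwards [hev1, eventually_ge_atTop 1, eventually_ge_atTop ((R + U) / b),
    eventually_ge_atTop ((1 + 2 * U * (1 + b) + U ^ 2) / ε)] with g hg1 hg2 hg3 hg4
  intro u hu
  have hg3' : R + U ≤ g * b := by
    rw [div_le_iff₀ hb0] at hg3
    linarith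
  have hcj : c ≤ |P.eval (j * g - (y * g + u))| := by
    refine hR _ ?_
    have h1 : (j * g - (y * g + u) : ℝ) = (j - y) * g - u := by ring
    rw [h1]
    have h2 := abs_sub_abs_le_abs_sub (((j : ℝ) - y) * g) u
    rw [abs_mul, abs_of_pos (by linarith : 0 < g)] at h2
    have h3 : |(j : ℝ) - y| * g = g * b := by rw [hb]; ring
    linarith
  have hne : gw P (j * g - (y * g + u)) ≠ 0 := by
    unfold gw
    refine mul_ne_zero ?_ (Real.exp_pos _).ne'
    intro h0
    rw [h0, abs_zero] at hcj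
    linarith
  have hq : g + 2 * g * U * (1 + b) + U ^ 2 ≤ ε * g ^ 2 := by
    rw [div_le_iff₀ hε] at hg4
    have h1 : (1 + 2 * U * (1 + b) + U ^ 2) * g ≤ (g * ε) * g :=
      mul_le_mul_of_nonneg_right hg4 (by linarith)
    have h2 : U ^ 2 ≤ U ^ 2 * g := le_mul_of_one_le_right (by positivity) hg2
    nlinarith
  set T : ℤ → ℝ := fun l => |cw S κ g l * gw P (l * g - (y * g + u))| with hT
  have hbound : ∀ l : ℤ, (if l = k ∨ l = j then 0 else T l) ≤
      T j * (K * Real.exp (-g) * (1 / (1 + |(l : ℝ) - y|) ^ 3)) := by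
    intro l
    split_ifs with h
    · have : 0 ≤ T j := abs_nonneg _
      positivity
    · push Not at h
      by_cases hl : l ∈ S
      · exact key hj hl hU hu hg2 hc hcj hD hD2 (hE l hl h.1 h.2) hq
      · have h1 : T l = 0 := by
          change |cw S κ g l * gw P (l * g - (y * g + u))| = 0
          rw [cw_of_notMem hl, zero_mul, abs_zero]
        rw [h1]
        have : 0 ≤ T j := abs_nonneg _
        positivity
  have hs1 : Summable fun l : ℤ => T j * (K * Real.exp (-g) * (1 / (1 + |(l : ℝ) - y|) ^ 3)) :=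
    (hsum.mul_left _).mul_left _
  have hnn : ∀ l : ℤ, 0 ≤ (if l = k ∨ l = j then 0 else T l) := by
    intro l
    split_ifs
    · exact le_rfl
    · exact abs_nonneg _
  have hs2 : Summable fun l : ℤ => (if l = k ∨ l = j then 0 else T l) :=
    Summable.of_nonneg_of_le hnn hbound hs1
  refine ⟨hne, ?_, ?_⟩
  · have h1 : Summable fun l : ℤ => (if l = k ∨ l = j then T l else 0) := by
      refine summable_of_ne_finset_zero (s := {k, j}) fun l hl => if_neg ?_
      simpa using hl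
    refine (h1.add hs2).congr fun l => ?_
    split_ifs <;> simp [T]
  · calc ∑' l : ℤ, (if l = k ∨ l = j then 0 else |cw S κ g l * gw P (l * g - (y * g + u))|)
        ≤ ∑' l : ℤ, T j * (K * Real.exp (-g) * (1 / (1 + |(l : ℝ) - y|) ^ 3)) :=
          hs2.tsum_le_tsum hbound hs1
      _ = T j * (K * Real.exp (-g) * Sg) := by
          rw [tsum_mul_left, tsum_mul_left]
      _ ≤ T j * (1 / 4) := mul_le_mul_of_nonneg_left hg1 (abs_nonneg _)
      _ = |cw S κ g j * gw P (j * g - (y * g + u))| / 4 := by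
          rw [mul_one_div]

end Pool.Agent.Y239.BEF
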